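import Pool.Agent.Helper16.RP.LA1
import Pool.Agent.Helper12.RS.LA1
import Pool.Agent.Helper51.RP.Goals1

/-!
# Packet RP-LA (MP_fc6b1e_nt): the linear algebra of project RP
-/

namespace Pool.Agent.Helper16.RP

open Polynomial Module TensorProduct Pool.Agent.Helper51.SigLeo Pool.Agent.Helper51.RP
open Pool.Agent.Helper12.RS (exists_coord s_eq ker_sub)

section coord

variable {A : Type} [AddCommGroup A] {r : ℕ} {π : A →+ (Fin r → ℤ)} {s : (Fin r → ℤ) →+ A}

theorem exists_exp [Module.Finite ℤ A] (hk : ∀ x, π x = 0 → ∃ n : ℤ, n ≠ 0 ∧ n • x = 0) :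
    ∃ N₀ : ℕ, N₀ ≠ 0 ∧ ∀ x, π x = 0 → N₀ • x = 0 := by
  classical
  obtain ⟨S, hS⟩ := IsNoetherian.noetherian (LinearMap.ker π.toIntLinearMap)
  have h1 : ∀ x : A, ∃ n : ℕ, n ≠ 0 ∧ (π x = 0 → n • x = 0) := by
    intro x
    by_cases hx : π x = 0
    · obtain ⟨n, hn, h⟩ := hk x hx
      refine ⟨n.natAbs, Int.natAbs_ne_zero.2 hn, fun _ => ?_⟩
      rcases Int.natAbs_eq n with h3 | h3
      · rw [← natCast_zsmul, ← h3, h]
      · rw [← natCast_zsmul]
        rw [h3, neg_smul, neg_eq_zero] at h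
        exact h
    · exact ⟨1, one_ne_zero, fun h => absurd h hx⟩
  choose n hn hn' using h1
  refine ⟨∏ x ∈ S, n x, Finset.prod_ne_zero_iff.2 fun x _ => hn x, fun x hx => ?_⟩
  have hx' : x ∈ Submodule.span ℤ (S : Set A) := by
    rw [hS]
    exact hx
  induction hx' using Submodule.span_induction with
  | mem y hy =>
    have h2 : π y = 0 := by
      have : y ∈ Submodule.span ℤ (S : Set A) := Submodule.subset_span hy
      rw [hS] at this
      exact this
    rw [← Finset.prod_erase_mul S n (Finset.mem_coe.1 hy), mul_smul, hn' y h2, smul_zero]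
  | zero => exact smul_zero _
  | add y z hy hz h2 h3 =>
    have h4 : ∀ y ∈ Submodule.span ℤ (S : Set A), π y = 0 := by
      intro y hy
      rw [hS] at hy
      exact hy
    rw [smul_add, h2 (h4 y hy), h3 (h4 z hz), add_zero]
  | smul a y hy h2 =>
    have h4 : π y = 0 := by
      rw [hS] at hy
      exact hy
    rw [smul_comm, h2 h4, smul_zero]

variable (π) in
/-- the `t`-th coordinate on `R ⊗ A` -/
noncomputable def cr (R : Type) [CommRing R] (t : Fin r) : R ⊗[ℤ] A →ₗ[R] R :=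
  LinearMap.liftBaseChange R
    ((Int.castAddHom R).comp ((Pi.evalAddMonoidHom (fun _ : Fin r => ℤ) t).comp π)).toIntLinearMap

theorem cr_tmul (R : Type) [CommRing R] (t : Fin r) (c : R) (a : A) :
    cr π R t (c ⊗ₜ[ℤ] a) = c * ((π a t : ℤ) : R) := by
  unfold cr
  rw [LinearMap.liftBaseChange_tmul]
  rfl

theorem coord_eq (hs : ∀ t, π (s t) = t) {N₀ : ℕ} (hN : ∀ x, π x = 0 → N₀ • x = 0)
    (R : Type) [CommRing R] (x : R ⊗[ℤ] A) :
    N₀ • x = N₀ • ∑ t, cr π R t x ⊗ₜ[ℤ] s (Pi.single t 1) := by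
  induction x using TensorProduct.induction_on with
  | zero => simp
  | tmul c a =>
    have h1 := hN _ (ker_sub hs a)
    have h2 : N₀ • (c ⊗ₜ[ℤ] (a - s (π a))) = 0 := by
      rw [← TensorProduct.tmul_smul, h1, TensorProduct.tmul_zero]
    rw [TensorProduct.tmul_sub, smul_sub, sub_eq_zero] at h2
    rw [h2]
    congr 1
    rw [s_eq (π a), TensorProduct.tmul_sum]
    refine Finset.sum_congr rfl fun t _ => ?_
    rw [cr_tmul, ← TensorProduct.smul_tmul, zsmul_eq_mul, mul_comm]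
  | add x y hx hy =>
    rw [smul_add, hx, hy, ← smul_add, ← Finset.sum_add_distrib]
    congr 1
    refine Finset.sum_congr rfl fun t _ => ?_
    rw [map_add, TensorProduct.add_tmul]

end coord

section gp

variable {p : ℕ} [Fact p.Prime] {A : Type} [AddCommGroup A]

/-- extension to `ℤ_p ⊗ A` -/
noncomputable def ez (g : A →+ ℚ_[p]) : ℤ_[p] ⊗[ℤ] A →ₗ[ℤ_[p]] ℚ_[p] :=
  LinearMap.liftBaseChange ℤ_[p] g.toIntLinearMap

theorem ez_tmul (g : A →+ ℚ_[p]) (c : ℤ_[p]) (a : A) :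
    ez g (c ⊗ₜ[ℤ] a) = (c : ℚ_[p]) * g a := by
  unfold ez
  rw [LinearMap.liftBaseChange_tmul]
  rfl

variable {k : Type} [NormedField k] [NormedAlgebra ℚ_[p] k]

/-- extension to `k ⊗ A` -/
noncomputable def ek (k : Type) [NormedField k] [NormedAlgebra ℚ_[p] k] (g : A →+ ℚ_[p]) :
    k ⊗[ℤ] A →ₗ[k] k :=
  extHom (((algebraMap ℚ_[p] k : ℚ_[p] →+* k) : ℚ_[p] →+ k).comp g)

theorem ek_tmul (g : A →+ ℚ_[p]) (c : k) (a : A) :
    ek k g (c ⊗ₜ[ℤ] a) = c * algebraMap ℚ_[p] k (g a) := by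
  unfold ek extHom
  rw [LinearMap.liftBaseChange_tmul]
  rfl

theorem extEnd_tmul' (f : A →+ A) (c : k) (a : A) :
    (extEnd f : (k ⊗[ℤ] A) →ₗ[k] (k ⊗[ℤ] A)) (c ⊗ₜ[ℤ] a) = c ⊗ₜ[ℤ] (f a) := by
  unfold extEnd
  rw [LinearMap.baseChange_tmul]
  rfl

theorem extEnd_iter (f : A →+ A) (l : ℕ) (x y : k ⊗[ℤ] A) :
    (extEnd f : (k ⊗[ℤ] A) →ₗ[k] (k ⊗[ℤ] A))^[l] (x + y) =
      (extEnd f : (k ⊗[ℤ] A) →ₗ[k] (k ⊗[ℤ] A))^[l] x +
      (extEnd f : (k ⊗[ℤ] A) →ₗ[k] (k ⊗[ℤ] A))^[l] y := by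
  induction l generalizing x y with
  | zero => rfl
  | succ l ih => rw [Function.iterate_succ_apply, map_add, ih]; rfl

theorem extEnd_iter_tmul (f : A →+ A) (l : ℕ) (c : k) (a : A) :
    (extEnd f : (k ⊗[ℤ] A) →ₗ[k] (k ⊗[ℤ] A))^[l] (c ⊗ₜ[ℤ] a) = c ⊗ₜ[ℤ] (f^[l] a) := by
  induction l generalizing a with
  | zero => rfl
  | succ l ih => rw [Function.iterate_succ_apply, extEnd_tmul', ih]; rfl

/-- iterate of an additive map, as an additive map -/
def it (f : A →+ A) (l : ℕ) : A →+ A := AddMonoidHom.mk' (f^[l]) fun x y => by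
  induction l generalizing x y with
  | zero => rfl
  | succ l ih =>
    rw [Function.iterate_succ_apply, Function.iterate_succ_apply, Function.iterate_succ_apply,
      map_add, ih]

theorem it_apply (f : A →+ A) (l : ℕ) (x : A) : it f l x = f^[l] x := rfl

theorem ek_it (g : A →+ ℚ_[p]) (f : A →+ A) (l : ℕ) (x : k ⊗[ℤ] A) :
    ek k (g.comp (it f l)) x = ek k g ((extEnd f : (k ⊗[ℤ] A) →ₗ[k] (k ⊗[ℤ] A))^[l] x) := by
  induction x using TensorProduct.induction_on with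
  | zero =>
    have h : (extEnd f : (k ⊗[ℤ] A) →ₗ[k] (k ⊗[ℤ] A))^[l] 0 = 0 := by
      have := extEnd_iter_tmul (k := k) f l 0 0
      rw [TensorProduct.zero_tmul, TensorProduct.zero_tmul] at this
      exact this
    rw [h, map_zero, map_zero]
  | tmul c a => rw [extEnd_iter_tmul, ek_tmul, ek_tmul]; rfl
  | add x y hx hy => rw [extEnd_iter, map_add, map_add, hx, hy]

theorem ez_it (g : A →+ ℚ_[p]) (f : A →+ A) (l : ℕ) (x : ℤ_[p] ⊗[ℤ] A) :
    ez (g.comp (it f l)) x = ez g ((bc p f ^ l) x) := by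
  induction x using TensorProduct.induction_on with
  | zero => simp
  | tmul c a => rw [bc_pow_tmul, ez_tmul, ez_tmul]; rfl
  | add x y hx hy => rw [map_add, hx, hy, map_add, map_add]

/-- From `k` to `ℤ_p`. -/
theorem exists_lin {r : ℕ} {v : Fin r → k} (hv : v ≠ 0) :
    ∃ (ω : Fin r → ℤ_[p]) (j₀ : Fin r), ω j₀ = 1 ∧
      ∀ c : Fin r → ℚ_[p], ∑ j, v j * algebraMap ℚ_[p] k (c j) = 0 →
        ∑ j, (ω j : ℚ_[p]) * c j = 0 := by
  obtain ⟨j₁, hj₁⟩ : ∃ j, v j ≠ 0 := by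
    by_contra h
    push Not at h
    exact hv (funext h)
  obtain ⟨lam, hlam⟩ : ∃ lam : k →ₗ[ℚ_[p]] ℚ_[p], lam (v j₁) ≠ 0 := by
    by_contra h
    push Not at h
    exact hj₁ ((Module.forall_dual_apply_eq_zero_iff ℚ_[p] (v j₁)).1 h)
  have : Nonempty (Fin r) := ⟨j₁⟩
  obtain ⟨j₀, hj₀⟩ := Finite.exists_max fun j => ‖lam (v j)‖
  have hw0 : lam (v j₀) ≠ 0 := by
    intro h
    have := hj₀ j₁
    rw [h, norm_zero] at this
    exact hlam (norm_le_zero_iff.1 this)
  let c1 : k →ₗ[ℚ_[p]] ℚ_[p] := (lam (v j₀))⁻¹ • lam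
  have hc1 : ∀ x, c1 x = (lam (v j₀))⁻¹ * lam x := fun x => rfl
  have hle : ∀ j, ‖c1 (v j)‖ ≤ 1 := fun j => by
    rw [hc1, norm_mul, norm_inv]
    have h1 := hj₀ j
    have h2 : 0 < ‖lam (v j₀)‖ := norm_pos_iff.2 hw0
    rw [inv_mul_le_iff₀ h2, mul_one]
    exact h1
  let ω : Fin r → ℤ_[p] := fun j => ⟨c1 (v j), hle j⟩
  refine ⟨ω, j₀, ?_, ?_⟩
  · apply Subtype.ext
    change c1 (v j₀) = 1
    rw [hc1, inv_mul_cancel₀ hw0]
  · intro c hc
    have h1 := congrArg c1 hc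
    rw [map_sum, map_zero] at h1
    rw [← h1]
    refine Finset.sum_congr rfl fun j _ => ?_
    have h2 : v j * algebraMap ℚ_[p] k (c j) = c j • v j := by
      rw [Algebra.smul_def, mul_comm]
    rw [h2, map_smul, smul_eq_mul, mul_comm]

/-- The element of `ℤ_p ⊗ A` which satisfies all the linear relations of `z`. -/
theorem gp [Module.Finite ℤ A] (Φ : ℤ_[p][X]) (ζ : k)
    (hΦ : eval₂ ((algebraMap ℚ_[p] k).comp (algebraMap ℤ_[p] ℚ_[p])) ζ Φ = 0)
    (δ : A →+ A) {z : k ⊗[ℤ] A} (hz : z ≠ 0)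
    (hδz : (extEnd δ : (k ⊗[ℤ] A) →ₗ[k] (k ⊗[ℤ] A)) z = ζ • z) :
    ∃ w : ℤ_[p] ⊗[ℤ] A, w ≠ 0 ∧ aeval (bc p δ) Φ w = 0 ∧
      ∀ g : A →+ ℚ_[p], ek k g z = 0 → ez g w = 0 := by
  have hch : CharZero k := charZero_of_injective_algebraMap (algebraMap ℚ_[p] k).injective
  obtain ⟨r, π, s, hs, hk⟩ := exists_coord A
  obtain ⟨N₀, hN0, hN⟩ := exists_exp hk
  have hzc := coord_eq hs hN k z
  have hv : (fun t => cr π k t z) ≠ 0 := by
    intro h
    apply hz
    have h1 : N₀ • z = 0 := by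
      rw [hzc]
      have h2 : ∀ t, cr π k t z = 0 := fun t => congrFun h t
      simp [h2]
    rw [← Nat.cast_smul_eq_nsmul k] at h1
    exact (smul_eq_zero.1 h1).resolve_left (Nat.cast_ne_zero.2 hN0)
  obtain ⟨ω, t₀, hω, hrel⟩ := exists_lin (p := p) hv
  let b₀ : ℤ_[p] ⊗[ℤ] A := ∑ t, ω t ⊗ₜ[ℤ] s (Pi.single t 1)
  have hgp : ∀ g : A →+ ℚ_[p], ek k g z = 0 → ez g b₀ = 0 := by
    intro g hg
    have h1 := congrArg (ek k g) hzc
    rw [map_nsmul, map_nsmul, hg, smul_zero, map_sum] at h1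
    simp only [ek_tmul] at h1
    have h2 := (smul_eq_zero.1 h1.symm).resolve_left hN0
    have h3 := hrel (fun t => g (s (Pi.single t 1))) h2
    show ez g (∑ t, ω t ⊗ₜ[ℤ] s (Pi.single t 1)) = 0
    rw [map_sum]
    simp only [ez_tmul]
    exact h3
  have hcr : ∀ t, cr π ℤ_[p] t b₀ = ω t := by
    intro t
    show cr π ℤ_[p] t (∑ t, ω t ⊗ₜ[ℤ] s (Pi.single t 1)) = _
    rw [map_sum]
    simp only [cr_tmul, hs]
    rw [Finset.sum_eq_single t]
    · simp
    · intro t' _ ht'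
      rw [Pi.single_eq_of_ne (Ne.symm ht')]
      simp
    · intro h
      exact absurd (Finset.mem_univ t) h
  refine ⟨N₀ • b₀, ?_, ?_, ?_⟩
  · intro h
    have h1 := congrArg (cr π ℤ_[p] t₀) h
    rw [map_nsmul, hcr, hω, map_zero, nsmul_eq_mul, mul_one] at h1
    exact hN0 (by exact_mod_cast h1)
  · rw [map_nsmul]
    have h1 : ∀ t, cr π ℤ_[p] t (aeval (bc p δ) Φ b₀) = 0 := by
      intro t
      -- the homomorphism `∑ Φ_n π_t δ^n`
      let q : ℕ → A →+ ℚ_[p] := fun n =>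
        ((Int.castAddHom ℚ_[p]).comp ((Pi.evalAddMonoidHom (fun _ : Fin r => ℤ) t).comp π)).comp
          (it δ n)
      let g : A →+ ℚ_[p] := ∑ n ∈ Finset.range (Φ.natDegree + 1),
        (AddMonoidHom.mulLeft ((Φ.coeff n : ℤ_[p]) : ℚ_[p])).comp (q n)
      have hg : ∀ a, g a = ∑ n ∈ Finset.range (Φ.natDegree + 1),
          ((Φ.coeff n : ℤ_[p]) : ℚ_[p]) * ((π (δ^[n] a) t : ℤ) : ℚ_[p]) := by
        intro a
        show (∑ n ∈ Finset.range (Φ.natDegree + 1), _ : A →+ ℚ_[p]) a = _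
        rw [AddMonoidHom.finsetSum_apply]
        rfl
      have hek : ∀ x : k ⊗[ℤ] A, ek k g x = ∑ n ∈ Finset.range (Φ.natDegree + 1),
          (algebraMap ℚ_[p] k (algebraMap ℤ_[p] ℚ_[p] (Φ.coeff n))) *
            cr π k t ((extEnd δ : (k ⊗[ℤ] A) →ₗ[k] (k ⊗[ℤ] A))^[n] x) := by
        intro x
        induction x using TensorProduct.induction_on with
        | zero =>
          rw [map_zero]
          refine (Finset.sum_eq_zero fun n _ => ?_).symm
          have h : (extEnd δ : (k ⊗[ℤ] A) →ₗ[k] (k ⊗[ℤ] A))^[n] 0 = 0 := by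
            have := extEnd_iter_tmul (k := k) δ n 0 0
            rw [TensorProduct.zero_tmul, TensorProduct.zero_tmul] at this
            exact this
          rw [h, map_zero, mul_zero]
        | tmul c a =>
          rw [ek_tmul, hg, map_sum, Finset.mul_sum]
          refine Finset.sum_congr rfl fun n _ => ?_
          rw [extEnd_iter_tmul, cr_tmul, map_mul, map_intCast]
          show c * (algebraMap ℚ_[p] k (Φ.coeff n : ℚ_[p]) * _) = algebraMap ℚ_[p] k
            (Φ.coeff n : ℚ_[p]) * _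
          ring
        | add x y hx hy =>
          rw [map_add, hx, hy, ← Finset.sum_add_distrib]
          refine Finset.sum_congr rfl fun n _ => ?_
          rw [extEnd_iter, map_add, mul_add]
      have hit : ∀ n : ℕ, (extEnd δ : (k ⊗[ℤ] A) →ₗ[k] (k ⊗[ℤ] A))^[n] z = ζ ^ n • z := by
        intro n
        induction n with
        | zero => simp
        | succ n ih =>
          rw [Function.iterate_succ_apply', ih, map_smul, hδz, smul_smul, pow_succ]
      have hgz : ek k g z = 0 := by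
        rw [hek]
        simp only [hit, map_smul, smul_eq_mul, ← mul_assoc]
        rw [← Finset.sum_mul]
        have h2 := hΦ
        rw [eval₂_eq_sum_range] at h2
        have h3 : ∑ n ∈ Finset.range (Φ.natDegree + 1),
            (algebraMap ℚ_[p] k (algebraMap ℤ_[p] ℚ_[p] (Φ.coeff n))) * ζ ^ n = 0 := h2
        rw [h3, zero_mul]
      have h4 := hgp g hgz
      have hez : ∀ x : ℤ_[p] ⊗[ℤ] A, ez g x =
          ((cr π ℤ_[p] t (aeval (bc p δ) Φ x) : ℤ_[p]) : ℚ_[p]) := by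
        intro x
        rw [aeval_eq_sum_range, LinearMap.sum_apply, map_sum]
        induction x using TensorProduct.induction_on with
        | zero => simp
        | tmul c a =>
          rw [ez_tmul, hg, Finset.mul_sum, PadicInt.coe_sum]
          refine Finset.sum_congr rfl fun n _ => ?_
          rw [LinearMap.smul_apply, bc_pow_tmul, map_smul, cr_tmul, smul_eq_mul]
          push_cast
          ring
        | add x y hx hy =>
          simp only [map_add, hx, hy, Finset.sum_add_distrib, PadicInt.coe_add]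
      rw [hez, PadicInt.coe_eq_zero] at h4
      exact h4
    rw [coord_eq hs hN ℤ_[p]]
    simp [h1]
  · intro g hg
    rw [map_nsmul, hgp g hg, smul_zero]

end gp

theorem comm_aeval {R S : Type*} [CommRing R] [Ring S] [Algebra R S] {a b : S}
    (h : Commute a b) (q : R[X]) : Commute (aeval a q) b := by
  rw [aeval_eq_sum_range]
  exact Commute.sum_left _ _ _ fun n _ => (h.pow_left n).smul_left _

/-- an eigenvector of `T` -/
theorem aeval_eig {R V : Type*} [CommRing R] [AddCommGroup V] [Module R V] (T : Module.End R V)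
    (q : R[X]) {c : R} {t : V} (h : T t = c • t) : aeval T q t = q.eval c • t := by
  have h1 : ∀ n : ℕ, (T ^ n) t = c ^ n • t := by
    intro n
    induction n with
    | zero => simp
    | succ n ih => rw [pow_succ, Module.End.mul_apply, h, map_smul, ih, smul_smul, pow_succ,
        mul_comm]
  rw [aeval_eq_sum_range, eval_eq_sum_range, LinearMap.sum_apply, Finset.sum_smul]
  refine Finset.sum_congr rfl fun n _ => ?_
  rw [LinearMap.smul_apply, h1, smul_smul]

/-- homomorphisms from a finitely generated group to `ℚ_p` are bounded -/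
theorem exists_bound {p : ℕ} [Fact p.Prime] {A : Type} [AddCommGroup A] [Module.Finite ℤ A]
    {ι : Type} [Finite ι] (f : ι → A →+ ℚ_[p]) :
    ∃ c₀ : ℕ, ∀ j (b : ℤ_[p] ⊗[ℤ] A), ‖ez (f j) b‖ ≤ (p : ℝ) ^ c₀ := by
  classical
  have hp : p.Prime := Fact.out
  obtain ⟨S, hS⟩ := (Module.Finite.fg_top : (⊤ : Submodule ℤ A).FG)
  obtain ⟨B, hB⟩ := (Set.finite_range (fun q : ι × S => ‖f q.1 (q.2 : A)‖)).bddAbove
  obtain ⟨n, hn⟩ := pow_unbounded_of_one_lt B (Nat.one_lt_cast.2 hp.one_lt : (1 : ℝ) < p)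
  refine ⟨n, fun j => ?_⟩
  have h1 : ∀ a : A, ‖f j a‖ ≤ (p : ℝ) ^ n := by
    intro a
    have ha : a ∈ Submodule.span ℤ (S : Set A) := by rw [hS]; trivial
    induction ha using Submodule.span_induction with
    | mem y hy => exact (hB ⟨(j, ⟨y, hy⟩), rfl⟩).trans hn.le
    | zero => rw [map_zero, norm_zero]; positivity
    | add y z _ _ h2 h3 =>
      rw [map_add]
      exact (Padic.nonarchimedean _ _).trans (max_le h2 h3)
    | smul a y _ h2 =>
      rw [map_zsmul, zsmul_eq_mul, norm_mul]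
      exact (mul_le_of_le_one_left (norm_nonneg _) (Padic.norm_int_le_one a)).trans h2
  intro b
  induction b using TensorProduct.induction_on with
  | zero => rw [map_zero, norm_zero]; positivity
  | tmul c a =>
    rw [ez_tmul, norm_mul]
    exact (mul_le_of_le_one_left (norm_nonneg _) c.2).trans (h1 a)
  | add y z h2 h3 =>
    rw [map_add]
    exact (Padic.nonarchimedean _ _).trans (max_le h2 h3)

theorem s_la : S_LA := by
  intro p _ k _ _ m ζ Φ P hP A _ _ δ γ i hδm hcomm hγ htor hPi ι _ f z hz hδz hfz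
  have hp : p.Prime := Fact.out
  have hp0 : (p : ℝ) ≠ 0 := Nat.cast_ne_zero.2 hp.ne_zero
  obtain ⟨w₀, hw₀, hw₁, hw₂⟩ := gp Φ ζ hP.root δ hz hδz
  set dB := bc p δ with hdB
  set gB := bc p γ with hgB
  have hcB : Commute dB gB := bc_comm p δ γ hcomm
  have hgeo : ∑ j ∈ Finset.range p, gB ^ j = 0 := bc_geom p γ hγ
  -- the submodule
  let W : Submodule ℤ_[p] (ℤ_[p] ⊗[ℤ] A) :=
    LinearMap.ker (aeval dB Φ) ⊓ ⨅ j : ι, ⨅ l : ℕ, LinearMap.ker (ez (f j) ∘ₗ gB ^ l)
  have hmem : ∀ x, x ∈ W ↔ aeval dB Φ x = 0 ∧ ∀ j l, ez (f j) ((gB ^ l) x) = 0 := by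
    intro x
    show x ∈ (LinearMap.ker (aeval dB Φ) ⊓ ⨅ j : ι, ⨅ l : ℕ, LinearMap.ker (ez (f j) ∘ₗ gB ^ l) :
      Submodule ℤ_[p] (ℤ_[p] ⊗[ℤ] A)) ↔ _
    rw [Submodule.mem_inf, LinearMap.mem_ker, Submodule.mem_iInf]
    simp only [Submodule.mem_iInf, LinearMap.mem_ker, LinearMap.comp_apply]
  have hw₀W : w₀ ∈ W := by
    rw [hmem]
    refine ⟨hw₁, fun j l => ?_⟩
    rw [hgB, ← ez_it]
    refine hw₂ _ ?_
    rw [ek_it]
    exact hfz j l
  have hgW : ∀ w ∈ W, gB w ∈ W := by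
    intro w hw
    rw [hmem] at hw ⊢
    refine ⟨?_, fun j l => ?_⟩
    · have h1 : Commute (aeval dB Φ) gB := by
        exact comm_aeval hcB Φ
      have h2 := congrArg (fun T : Module.End ℤ_[p] (ℤ_[p] ⊗[ℤ] A) => T w) h1.eq
      simp only [Module.End.mul_apply] at h2
      rw [h2, hw.1, map_zero]
    · have := hw.2 j (l + 1)
      rwa [pow_succ, Module.End.mul_apply] at this
  -- some element of `W` is not in `(γ-1)B`
  obtain ⟨w, hwW, hw⟩ : ∃ w ∈ W, ¬ ∃ v, w = gB v - v := by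
    by_contra hcon
    push Not at hcon
    have hbot := eq_bot gB hgeo W hgW (fun w hw => by
      obtain ⟨v₀, hv₀⟩ := hcon w hw
      have hΦi : IsUnit (Φ.eval (i : ℤ_[p])) := by
        rw [PadicInt.isUnit_iff]
        by_contra hne
        apply hPi
        have h1 : ‖Φ.eval (i : ℤ_[p])‖ < 1 := lt_of_le_of_ne (PadicInt.norm_le_one _) hne
        have h2 : Φ.eval (i : ℤ_[p]) ∈ IsLocalRing.maximalIdeal ℤ_[p] := by
          rw [IsLocalRing.mem_maximalIdeal]
          exact PadicInt.mem_nonunits.2 h1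
        rw [← PadicInt.ker_toZMod, RingHom.mem_ker] at h2
        rw [hP.map, eval_natCast_map, h2]
      obtain ⟨c, hc⟩ := hΦi.exists_left_inv
      have hcomm2 : ∀ x, aeval dB Φ (gB x) = gB (aeval dB Φ x) := fun x =>
        congrArg (fun T : Module.End ℤ_[p] (ℤ_[p] ⊗[ℤ] A) => T x) (comm_aeval hcB Φ).eq
      set t := aeval dB Φ v₀ with ht
      have hgt : gB t = t := by
        have h1 : aeval dB Φ w = 0 := ((hmem w).1 hw).1
        rw [hv₀, map_sub, hcomm2, sub_eq_zero] at h1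
        exact h1
      have hpt : (p : ℤ_[p]) • t = 0 := by
        have h1 := congrArg (fun T : Module.End ℤ_[p] (ℤ_[p] ⊗[ℤ] A) => T t) hgeo
        simp only [LinearMap.sum_apply, LinearMap.zero_apply] at h1
        have h2 : ∀ n : ℕ, (gB ^ n) t = t := by
          intro n
          induction n with
          | zero => rfl
          | succ n ih => rw [pow_succ, Module.End.mul_apply, hgt, ih]
        simp only [h2] at h1
        rw [Finset.sum_const, Finset.card_range, ← Nat.cast_smul_eq_nsmul ℤ_[p]] at h1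
        exact h1
      have hdt : dB t = (i : ℤ_[p]) • t :=
        bc_torsion p δ i (fun x hx => htor x 1 (by rwa [pow_one])) t hpt
      have hv : w = gB (v₀ - c • t) - (v₀ - c • t) := by
        rw [map_sub, map_smul, hgt, hv₀]
        abel
      refine ⟨v₀ - c • t, (hmem _).2 ⟨?_, ?_⟩, hv⟩
      · rw [map_sub, map_smul, aeval_eig dB Φ hdt, smul_smul, hc, one_smul]
        exact sub_self _
      · intro j
        set v := v₀ - c • t with hvdef
        have h1 : ∀ l : ℕ, ez (f j) ((gB ^ l) v) = ez (f j) v := by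
          intro l
          induction l with
          | zero => rfl
          | succ l ih =>
            have h2 := ((hmem w).1 hw).2 j l
            rw [hv, map_sub, map_sub, ih, sub_eq_zero] at h2
            rw [pow_succ, Module.End.mul_apply]
            exact h2
        have h3 : (p : ℚ_[p]) * ez (f j) v = 0 := by
          have h4 := congrArg (fun T : Module.End ℤ_[p] (ℤ_[p] ⊗[ℤ] A) => ez (f j) (T v)) hgeo
          simp only [LinearMap.sum_apply, LinearMap.zero_apply, map_sum, map_zero, h1] at h4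
          rw [Finset.sum_const, Finset.card_range, nsmul_eq_mul] at h4
          exact h4
        have h5 : ez (f j) v = 0 :=
          (mul_eq_zero.1 h3).resolve_left (Nat.cast_ne_zero.2 hp.ne_zero)
        intro l
        rw [h1 l, h5])
    rw [hbot, Submodule.mem_bot] at hw₀W
    exact hw₀ hw₀W
  obtain ⟨hwΦ, hwF⟩ := (hmem w).1 hwW
  obtain ⟨c₀, hc₀⟩ := exists_bound f
  -- the sequence
  have hdens := fun N : ℕ => density p (N + c₀ + 1) w
  choose u b hub using hdens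
  have hpB : ∀ x : ℤ_[p] ⊗[ℤ] A, ∃ v, (p : ℤ_[p]) • x = gB v - v := by
    intro x
    obtain ⟨v, hv⟩ := nsmul_mem (gB : (ℤ_[p] ⊗[ℤ] A) →+ (ℤ_[p] ⊗[ℤ] A)) p (fun x => by
      have h1 := congrArg (fun T : Module.End ℤ_[p] (ℤ_[p] ⊗[ℤ] A) => T x) hgeo
      simp only [LinearMap.sum_apply, LinearMap.zero_apply, Module.End.pow_apply] at h1
      exact h1) x
    exact ⟨v, by rw [Nat.cast_smul_eq_nsmul]; exact hv⟩
  have hpow : ∀ (N : ℕ), (p : ℤ_[p]) ^ (N + c₀ + 1) • b N =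
      (p : ℤ_[p]) • ((p : ℤ_[p]) ^ (N + c₀) • b N) := fun N => by
    rw [smul_smul, ← pow_succ']
  have hu1 : ∀ N, (1 : ℤ_[p]) ⊗ₜ[ℤ] u N = w - (p : ℤ_[p]) ^ (N + c₀ + 1) • b N := fun N =>
    eq_sub_of_add_eq (hub N).symm
  refine ⟨u, ?_, ?_, ?_, ?_⟩
  · intro N
    have h1 : (1 : ℤ_[p]) ⊗ₜ[ℤ] (u N - u 0) =
        (p : ℤ_[p]) • ((p : ℤ_[p]) ^ (0 + c₀) • b 0 - (p : ℤ_[p]) ^ (N + c₀) • b N) := by
      rw [TensorProduct.tmul_sub, hu1, hu1, smul_sub, ← hpow, ← hpow]
      abel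
    obtain ⟨a', ha'⟩ := inj_mod p _ _ h1
    obtain ⟨v, hv⟩ := nsmul_mem γ p hγ a'
    exact ⟨v, by rw [← hv, ← ha']; abel⟩
  · rintro ⟨a, ha⟩
    apply hw
    obtain ⟨v, hv⟩ := hpB ((p : ℤ_[p]) ^ (0 + c₀) • b 0)
    refine ⟨(1 : ℤ_[p]) ⊗ₜ[ℤ] a + v, ?_⟩
    have h1 := hub 0
    rw [hpow, hv, ha, TensorProduct.tmul_sub] at h1
    rw [h1, map_add, hgB, bc_tmul]
    abel
  · -- the polynomial
    have h1 : ∀ n : ℕ, ∃ d : ℤ_[p], (((P.coeff n).val : ℕ) : ℤ_[p]) - Φ.coeff n = p * d := by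
      intro n
      have h2 : (((P.coeff n).val : ℕ) : ℤ_[p]) - Φ.coeff n ∈ IsLocalRing.maximalIdeal ℤ_[p] := by
        rw [← PadicInt.ker_toZMod, RingHom.mem_ker, map_sub, map_natCast, ZMod.natCast_zmod_val,
          hP.map, coeff_map, sub_self]
      rw [PadicInt.maximalIdeal_eq_span_p, Ideal.mem_span_singleton] at h2
      exact h2
    choose d hd using h1
    have hsub : P.support ⊆ Finset.range (Φ.natDegree + 1) := by
      rw [hP.map]
      intro n hn
      rw [Finset.mem_range]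
      have h1 := le_natDegree_of_mem_supp n hn
      have h2 := natDegree_map_le (f := (PadicInt.toZMod (p := p))) (p := Φ)
      omega
    have h3 : ∑ n ∈ P.support, (P.coeff n).val • (dB ^ n) w =
        (p : ℤ_[p]) • ∑ n ∈ Finset.range (Φ.natDegree + 1), d n • (dB ^ n) w := by
      have h4 : ∑ n ∈ P.support, (P.coeff n).val • (dB ^ n) w =
          ∑ n ∈ Finset.range (Φ.natDegree + 1), (P.coeff n).val • (dB ^ n) w := by
        refine Finset.sum_subset hsub fun n _ hn => ?_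
        rw [notMem_support_iff.1 hn, ZMod.val_zero, zero_smul]
      have h5 : ∑ n ∈ Finset.range (Φ.natDegree + 1), Φ.coeff n • (dB ^ n) w = 0 := by
        rw [← hwΦ, aeval_eq_sum_range, LinearMap.sum_apply]
        rfl
      rw [h4, ← sub_zero (∑ n ∈ Finset.range (Φ.natDegree + 1), (P.coeff n).val • (dB ^ n) w),
        ← h5, ← Finset.sum_sub_distrib, Finset.smul_sum]
      refine Finset.sum_congr rfl fun n _ => ?_
      rw [← Nat.cast_smul_eq_nsmul ℤ_[p], ← sub_smul, hd, mul_smul]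
    have h6 : (1 : ℤ_[p]) ⊗ₜ[ℤ] (∑ j ∈ P.support, (P.coeff j).val • δ^[j] (u 0)) =
        (p : ℤ_[p]) • (∑ n ∈ Finset.range (Φ.natDegree + 1), d n • (dB ^ n) w -
          ∑ n ∈ P.support, (P.coeff n).val • (dB ^ n) ((p : ℤ_[p]) ^ (0 + c₀) • b 0)) := by
      rw [smul_sub, ← h3, TensorProduct.tmul_sum, Finset.smul_sum, ← Finset.sum_sub_distrib]
      refine Finset.sum_congr rfl fun n _ => ?_
      rw [TensorProduct.tmul_smul, ← bc_pow_tmul, hu1, ← hdB, map_sub, smul_sub, hpow, map_smul,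
        smul_comm]
    obtain ⟨a', ha'⟩ := inj_mod p _ _ h6
    obtain ⟨v, hv⟩ := nsmul_mem γ p hγ a'
    exact ⟨v, by rw [ha', hv]⟩
  · intro N j l
    have h1 : ((f j (γ^[l] (u N)) : ℚ_[p])) =
        -((p : ℚ_[p]) ^ (N + c₀ + 1) * ez (f j) ((gB ^ l) (b N))) := by
      have h2 : f j (γ^[l] (u N)) = ez (f j) ((gB ^ l) ((1 : ℤ_[p]) ⊗ₜ[ℤ] u N)) := by
        rw [hgB, bc_pow_tmul, ez_tmul]
        simp
      rw [h2, hu1, map_sub, map_sub, hwF, zero_sub, map_smul, map_smul]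
      congr 1
    rw [h1, norm_neg, norm_mul, norm_pow, Padic.norm_p]
    have h3 := hc₀ j ((gB ^ l) (b N))
    have h4 : (0 : ℝ) < p := Nat.cast_pos.2 hp.pos
    calc ((p : ℝ)⁻¹) ^ (N + c₀ + 1) * ‖ez (f j) ((gB ^ l) (b N))‖
        ≤ ((p : ℝ)⁻¹) ^ (N + c₀ + 1) * (p : ℝ) ^ c₀ :=
          mul_le_mul_of_nonneg_left h3 (by positivity)
      _ = (1 / p : ℝ) ^ N * (p : ℝ)⁻¹ := by
          rw [one_div, pow_succ, pow_add]
          have : ((p : ℝ)⁻¹) ^ c₀ * (p : ℝ) ^ c₀ = 1 := by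
            rw [← mul_pow, inv_mul_cancel₀ hp0, one_pow]
          linear_combination (((p : ℝ)⁻¹) ^ N * (p : ℝ)⁻¹) * this
      _ ≤ (1 / p : ℝ) ^ N := by
          refine mul_le_of_le_one_right (by positivity) ?_
          exact inv_le_one_of_one_le₀ (Nat.one_le_cast.2 hp.one_lt.le)

end Pool.Agent.Helper16.RP
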