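import Mathlib

/-!
# Packet RP-LA, part 1: the module `ℤ_p ⊗ A`
-/

namespace Pool.Agent.Helper16.RP

open Polynomial Module TensorProduct

/-- `p A ⊆ (γ-1) A` if `1 + γ + ... + γ^(p-1) = 0`. -/
theorem nsmul_mem {G : Type*} [AddCommGroup G] (γ : G →+ G) (p : ℕ)
    (h : ∀ x, ∑ j ∈ Finset.range p, γ^[j] x = 0) (x : G) : ∃ b, p • x = γ b - b := by
  have key : ∀ j : ℕ, γ (∑ i ∈ Finset.range j, γ^[i] x) - ∑ i ∈ Finset.range j, γ^[i] x =
      γ^[j] x - x := by
    intro j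
    induction j with
    | zero => simp
    | succ j ih =>
      rw [Finset.sum_range_succ, map_add, ← Function.iterate_succ_apply' γ j x]
      have : γ (∑ i ∈ Finset.range j, γ^[i] x) = γ^[j] x - x + ∑ i ∈ Finset.range j, γ^[i] x := by
        rw [← ih]; abel
      rw [this]
      abel
  refine ⟨-∑ j ∈ Finset.range p, ∑ i ∈ Finset.range j, γ^[i] x, ?_⟩
  rw [map_neg, map_sum, neg_sub_neg, ← neg_sub, ← Finset.sum_sub_distrib,
    Finset.sum_congr rfl (fun j _ => key j), Finset.sum_sub_distrib, h x, Finset.sum_const,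
    Finset.card_range]
  simp

section B

variable (p : ℕ) [Fact p.Prime] {A : Type} [AddCommGroup A]

/-- density of `A` in `ℤ_p ⊗ A` -/
theorem density (n : ℕ) (b : ℤ_[p] ⊗[ℤ] A) :
    ∃ (a : A) (b' : ℤ_[p] ⊗[ℤ] A), b = (1 : ℤ_[p]) ⊗ₜ[ℤ] a + (p : ℤ_[p]) ^ n • b' := by
  induction b using TensorProduct.induction_on with
  | zero => exact ⟨0, 0, by simp⟩
  | tmul c a =>
    have h1 := PadicInt.appr_spec n c
    rw [Ideal.mem_span_singleton] at h1
    obtain ⟨d, hd⟩ := h1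
    refine ⟨(c.appr n : ℤ) • a, d ⊗ₜ a, ?_⟩
    rw [← TensorProduct.smul_tmul, TensorProduct.smul_tmul', ← TensorProduct.add_tmul]
    congr 1
    rw [smul_eq_mul, ← hd, zsmul_eq_mul]
    push_cast
    ring
  | add x y hx hy =>
    obtain ⟨a, b, h⟩ := hx
    obtain ⟨a', b', h'⟩ := hy
    refine ⟨a + a', b + b', ?_⟩
    conv_lhs => rw [h, h']
    rw [TensorProduct.tmul_add, smul_add]
    abel

/-- `A/pA` injects in `B/pB`. -/
theorem inj_mod (a : A) (b : ℤ_[p] ⊗[ℤ] A) (h : (1 : ℤ_[p]) ⊗ₜ[ℤ] a = (p : ℤ_[p]) • b) :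
    ∃ a' : A, a = p • a' := by
  let f : ℤ_[p] →+ A →+ ModN A p :=
    { toFun := fun c =>
        { toFun := fun x => (PadicInt.toZMod c) • (ModN.mkQ p x)
          map_zero' := by simp
          map_add' := by intro x y; rw [map_add, smul_add] }
      map_zero' := by ext x; simp
      map_add' := by intro c d; ext x; simp [add_smul] }
  let ψ : ℤ_[p] ⊗[ℤ] A →+ ModN A p := TensorProduct.liftAddHom f (by
    intro r m n
    show (PadicInt.toZMod (r • m)) • (ModN.mkQ p n) = (PadicInt.toZMod m) • (ModN.mkQ p (r • n))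
    rw [map_zsmul, map_zsmul, smul_assoc, smul_comm])
  have h1 : ψ ((1 : ℤ_[p]) ⊗ₜ[ℤ] a) = ModN.mkQ p a := by
    show (PadicInt.toZMod (p := p) 1) • (ModN.mkQ p a) = _
    rw [map_one, one_smul]
  have h2 : ψ ((p : ℤ_[p]) • b) = 0 := by
    have h3 : (p : ℤ_[p]) • b = p • b := by
      rw [Nat.cast_smul_eq_nsmul]
    rw [h3, map_nsmul]
    have h4 : ∀ x : ModN A p, p • x = 0 := by
      intro x
      rw [← Nat.cast_smul_eq_nsmul (ZMod p), ZMod.natCast_self, zero_smul]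
    exact h4 _
  rw [← h, h1] at h2
  have h3 : a ∈ LinearMap.range (LinearMap.lsmul ℤ A (p : ℤ)) :=
    (Submodule.Quotient.mk_eq_zero _).1 h2
  obtain ⟨a', ha'⟩ := h3
  refine ⟨a', ?_⟩
  rw [← ha']
  simp

variable (δ : A →+ A)

/-- the operator on `ℤ_p ⊗ A` -/
noncomputable def bc : Module.End ℤ_[p] (ℤ_[p] ⊗[ℤ] A) := δ.toIntLinearMap.baseChange ℤ_[p]

theorem bc_tmul (c : ℤ_[p]) (a : A) : bc p δ (c ⊗ₜ[ℤ] a) = c ⊗ₜ[ℤ] (δ a) := by
  unfold bc
  rw [LinearMap.baseChange_tmul]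
  rfl

theorem bc_pow_tmul (n : ℕ) (c : ℤ_[p]) (a : A) :
    (bc p δ ^ n) (c ⊗ₜ[ℤ] a) = c ⊗ₜ[ℤ] (δ^[n] a) := by
  induction n generalizing a with
  | zero => rfl
  | succ n ih => rw [pow_succ, Module.End.mul_apply, bc_tmul, ih, Function.iterate_succ_apply]

theorem bc_comm (γ : A →+ A) (h : ∀ x, δ (γ x) = γ (δ x)) : Commute (bc p δ) (bc p γ) := by
  refine LinearMap.ext fun x => ?_
  rw [Module.End.mul_apply, Module.End.mul_apply]
  induction x using TensorProduct.induction_on with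
  | zero => simp
  | tmul c a => rw [bc_tmul, bc_tmul, bc_tmul, bc_tmul, h]
  | add x y hx hy => rw [map_add, map_add, hx, hy, map_add, map_add]

theorem bc_geom (h : ∀ x, ∑ j ∈ Finset.range p, δ^[j] x = 0) :
    ∑ j ∈ Finset.range p, bc p δ ^ j = 0 := by
  refine LinearMap.ext fun x => ?_
  rw [LinearMap.zero_apply, LinearMap.sum_apply]
  induction x using TensorProduct.induction_on with
  | zero => simp
  | tmul c a =>
    simp only [bc_pow_tmul]
    rw [← TensorProduct.tmul_sum, h, TensorProduct.tmul_zero]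
  | add x y hx hy =>
    simp only [map_add]
    rw [Finset.sum_add_distrib, hx, hy, add_zero]

/-- The elements killed by `p` come from elements of `A` killed by `p`. -/
theorem bc_torsion (i : ℕ) (h : ∀ x : A, p • x = 0 → δ x = i • x) (t : ℤ_[p] ⊗[ℤ] A)
    (ht : (p : ℤ_[p]) • t = 0) : bc p δ t = (i : ℤ_[p]) • t := by
  let mp : A →ₗ[ℤ] A := LinearMap.lsmul ℤ A (p : ℤ)
  have hex : Function.Exact (LinearMap.ker mp).subtype mp := by
    intro y
    rw [← LinearMap.mem_ker]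
    constructor
    · intro hy
      exact ⟨⟨y, hy⟩, rfl⟩
    · rintro ⟨z, rfl⟩
      exact z.2
  have hex2 := Module.Flat.lTensor_exact ℤ_[p] hex
  have h1 : mp.lTensor ℤ_[p] t = 0 := by
    have h2 : ∀ x : ℤ_[p] ⊗[ℤ] A, mp.lTensor ℤ_[p] x = (p : ℤ_[p]) • x := by
      intro x
      induction x using TensorProduct.induction_on with
      | zero => simp
      | tmul c a =>
        rw [LinearMap.lTensor_tmul, TensorProduct.smul_tmul']
        show c ⊗ₜ[ℤ] ((p : ℤ) • a) = _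
        rw [← TensorProduct.smul_tmul, zsmul_eq_mul, smul_eq_mul]
        push_cast
        rfl
      | add x y hx hy => rw [map_add, hx, hy, smul_add]
    rw [h2, ht]
  obtain ⟨s, rfl⟩ := (hex2 t).1 h1
  clear ht h1
  induction s using TensorProduct.induction_on with
  | zero => simp
  | tmul c a =>
    rw [LinearMap.lTensor_tmul, bc_tmul]
    have h2 : p • (a : A) = 0 := by
      have := a.2
      rw [LinearMap.mem_ker] at this
      rw [← natCast_zsmul]
      exact this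
    have h3 := h _ h2
    show c ⊗ₜ[ℤ] δ (a : A) = _ • (c ⊗ₜ[ℤ] (a : A))
    rw [h3, Nat.cast_smul_eq_nsmul, TensorProduct.tmul_smul]
  | add x y hx hy => rw [map_add, map_add, hx, hy, smul_add]

end B

section nak

variable {p : ℕ} [Fact p.Prime] {B : Type*} [AddCommGroup B] [Module ℤ_[p] B]

/-- `(g-1)^p = p y` on a module where `1 + g + ... + g^(p-1) = 0`. -/
theorem sub_one_pow (g : Module.End ℤ_[p] B) (hg : ∑ j ∈ Finset.range p, g ^ j = 0) :
    ∃ y : ℤ[X], (g - 1) ^ p = (p : Module.End ℤ_[p] B) * aeval g y := by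
  have hp : p.Prime := Fact.out
  have h1 : g ^ p = 1 := by
    have := geom_sum_mul g p
    rw [hg, zero_mul] at this
    exact (sub_eq_zero.1 this.symm)
  have h2 : ∃ z : ℤ[X], ((X : ℤ[X]) - 1) ^ p = X ^ p - 1 + (p : ℤ[X]) * z := by
    have h3 := add_pow_prime_eq hp (X : ℤ[X]) (-1)
    rw [← sub_eq_add_neg] at h3
    rcases hp.eq_two_or_odd' with h4 | h4
    · subst h4
      refine ⟨1 - X, ?_⟩
      push_cast
      ring
    · rw [h4.neg_one_pow] at h3
      refine ⟨X * -1 * ∑ k ∈ Finset.Ioo 0 p, X ^ (k - 1) * (-1) ^ (p - k - 1) *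
        ((p.choose k / p : ℕ) : ℤ[X]), ?_⟩
      rw [h3]
      ring
  obtain ⟨z, hz⟩ := h2
  refine ⟨z, ?_⟩
  have h5 := congrArg (aeval g) hz
  simp only [map_pow, map_sub, aeval_X, map_one, map_add, map_mul, map_natCast] at h5
  rw [h5, h1, sub_self, zero_add]

theorem aeval_mem {W : Submodule ℤ_[p] B} {g : Module.End ℤ_[p] B} (hW : ∀ w ∈ W, g w ∈ W)
    (y : ℤ[X]) {w : B} (hw : w ∈ W) : aeval g y w ∈ W := by
  have h1 : ∀ n : ℕ, (g ^ n) w ∈ W := by
    intro n
    induction n with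
    | zero => exact hw
    | succ n ih => rw [pow_succ', Module.End.mul_apply]; exact hW _ ih
  rw [aeval_eq_sum_range, LinearMap.sum_apply]
  refine W.sum_mem fun n _ => ?_
  rw [LinearMap.smul_apply]
  exact W.smul_of_tower_mem _ (h1 n)

/-- Nakayama -/
theorem eq_bot [Module.Finite ℤ_[p] B] (g : Module.End ℤ_[p] B)
    (hg : ∑ j ∈ Finset.range p, g ^ j = 0) (W : Submodule ℤ_[p] B) (hW : ∀ w ∈ W, g w ∈ W)
    (h : ∀ w ∈ W, ∃ v ∈ W, w = g v - v) : W = ⊥ := by
  obtain ⟨y, hy⟩ := sub_one_pow g hg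
  have h1 : ∀ (n : ℕ), ∀ w ∈ W, ∃ v ∈ W, w = ((g - 1) ^ n) v := by
    intro n
    induction n with
    | zero => exact fun w hw => ⟨w, hw, rfl⟩
    | succ n ih =>
      intro w hw
      obtain ⟨v, hv, rfl⟩ := ih w hw
      obtain ⟨u, hu, rfl⟩ := h v hv
      refine ⟨u, hu, ?_⟩
      rw [pow_succ, Module.End.mul_apply]
      rfl
  refine Submodule.eq_bot_of_le_smul_of_le_jacobson_bot (IsLocalRing.maximalIdeal ℤ_[p]) W
    (IsNoetherian.noetherian W) ?_
    (le_of_eq (IsLocalRing.jacobson_eq_maximalIdeal ⊥ bot_ne_top).symm)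
  intro w hw
  obtain ⟨v, hv, rfl⟩ := h1 p w hw
  rw [hy, Module.End.mul_apply]
  have h2 : ((p : Module.End ℤ_[p] B)) (aeval g y v) = (p : ℤ_[p]) • (aeval g y v) := by
    rw [Nat.cast_smul_eq_nsmul]
    exact Module.End.natCast_apply p _
  rw [h2]
  refine Submodule.smul_mem_smul ?_ (aeval_mem hW y hv)
  rw [PadicInt.maximalIdeal_eq_span_p]
  exact Ideal.mem_span_singleton_self _

end nak

end Pool.Agent.Helper16.RP
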